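import Pool.Agent.Q96.ME.ASL
import Pool.Agent.Q285.ME.Constr
import Pool.Agent.Q224.ME.ENM
import Pool.Agent.Q224.ME.KLB

/-!
# Random sets near a model with independent elements: the count may be unbounded relative to its expectation

If the condition `Conv` of the almost sure law fails, then there is a random set whose relative entropy is at most `d` and whose
counting function is almost surely not `O` of the expected number.
-/

set_option autoImplicit false

namespace Pool.Agent.Q160.LT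

open Finset MeasureTheory Filter Pool.Agent.Q120.ET Pool.Agent.Q120.ME Pool.Agent.Q96.ME
open scoped Topology

variable {U : Set ℕ} {p d : ℕ → ℝ}

theorem hfun_le {u : ℝ} (hu : 0 ≤ u) : hfun u ≤ u ^ 2 + 1 := by
  unfold hfun
  rcases hu.eq_or_lt with h | h
  · rw [← h]; simp
  · have h1 := Real.log_le_sub_one_of_pos h
    nlinarith

/-- slowly growing multipliers -/
theorem weights {q : ℕ → ℝ} (hq0 : ∀ j, 0 ≤ q j) (hqs : ¬ Summable q) :
    ∃ b : ℕ → ℝ, (∀ j, 1 ≤ b j) ∧ Tendsto b atTop atTop ∧ ¬ Summable (fun j => q j / b j) := by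
  set S : ℕ → ℝ := fun j => ∑ i ∈ range j, q i with hS
  have hSt : Tendsto S atTop atTop := (not_summable_iff_tendsto_nat_atTop_of_nonneg hq0).1 hqs
  have hS0 : ∀ j, 0 ≤ S j := fun j => sum_nonneg (fun i _ => hq0 i)
  have hSm : Monotone S := monotone_nat_of_le_succ (fun j => by
    simp only [hS, sum_range_succ]
    linarith [hq0 j])
  refine ⟨fun j => √(1 + S j), fun j => ?_, ?_, ?_⟩
  · rw [Real.one_le_sqrt]
    linarith [hS0 j]
  · exact Real.tendsto_sqrt_atTop.comp (tendsto_atTop_add_const_left _ _ hSt)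
  · have hnn : ∀ j, 0 ≤ q j / √(1 + S j) := fun j => div_nonneg (hq0 j) (Real.sqrt_nonneg _)
    rw [not_summable_iff_tendsto_nat_atTop_of_nonneg hnn]
    have h1 : Tendsto (fun j => √(1 + S j) - 1) atTop atTop :=
      tendsto_atTop_add_const_right _ _ (Real.tendsto_sqrt_atTop.comp (tendsto_atTop_add_const_left _ _ hSt))
    refine tendsto_atTop_mono (fun N => ?_) h1
    have hs : 0 < √(1 + S N) := Real.sqrt_pos.2 (by linarith [hS0 N])
    have h2 : ∑ i ∈ range N, q i / √(1 + S N) ≤ ∑ i ∈ range N, q i / √(1 + S i) := by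
      refine sum_le_sum (fun i hi => ?_)
      rw [mem_range] at hi
      refine div_le_div_of_nonneg_left (hq0 i) (Real.sqrt_pos.2 (by linarith [hS0 i])) ?_
      exact Real.sqrt_le_sqrt (by linarith [hSm hi.le])
    refine le_trans ?_ h2
    rw [← sum_div]
    change _ ≤ S N / _
    rw [le_div_iff₀ hs]
    have h3 : √(1 + S N) * √(1 + S N) = 1 + S N := Real.mul_self_sqrt (by linarith [hS0 N])
    have h4 : 1 ≤ √(1 + S N) := by
      rw [Real.one_le_sqrt]
      linarith [hS0 N]
    nlinarith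

open Classical in
/-- the multipliers -/
noncomputable def kk (U : Set ℕ) (p : ℕ → ℝ) (y : ℕ → ℕ) (b : ℕ → ℝ) (J j : ℕ) : ℕ :=
  if J ≤ j then Nat.findGreatest (fun k => ((k : ℝ) ^ 2 + 1 ≤ b j) ∧ ∀ n ∈ U, y j ≤ n → ((k : ℝ) ^ 2 + 1) * p n ≤ 1) j else 1

theorem kk_spec (hR : Rates U p) {y : ℕ → ℕ} {b : ℕ → ℝ} (hb : ∀ j, 1 ≤ b j) {J j : ℕ} (hj : J ≤ j) :
    ((kk U p y b J j : ℝ) ^ 2 + 1 ≤ b j) ∧ ∀ n ∈ U, y j ≤ n → ((kk U p y b J j : ℝ) ^ 2 + 1) * p n ≤ 1 := by
  classical
  unfold kk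
  rw [if_pos hj]
  exact Nat.findGreatest_spec (P := fun k => ((k : ℝ) ^ 2 + 1 ≤ b j) ∧ ∀ n ∈ U, y j ≤ n → ((k : ℝ) ^ 2 + 1) * p n ≤ 1)
    (m := 0) (Nat.zero_le _) ⟨by simpa using hb j, fun n hn _ => by
      have := hR.lt_one n hn
      simp only [Nat.cast_zero]
      linarith⟩

theorem kk_tend (hR : Rates U p) {y : ℕ → ℕ} (hy : StrictMono y) {b : ℕ → ℝ} (hbt : Tendsto b atTop atTop) (J : ℕ) :
    Tendsto (kk U p y b J) atTop atTop := by
  classical
  rw [tendsto_atTop]
  intro k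
  have h1 : ∀ᶠ n : ℕ in atTop, n ∈ U → ((k : ℝ) ^ 2 + 1) * p n ≤ 1 := by
    filter_upwards [hR.small (1 / ((k : ℝ) ^ 2 + 1)) (by positivity)] with n hn hU
    have := hn hU
    rw [lt_div_iff₀ (by positivity)] at this
    linarith
  obtain ⟨N, hN⟩ := eventually_atTop.1 h1
  filter_upwards [eventually_ge_atTop J, eventually_ge_atTop k, eventually_ge_atTop N,
    hbt.eventually_ge_atTop ((k : ℝ) ^ 2 + 1)] with j hj1 hj2 hj3 hj4
  unfold kk
  rw [if_pos hj1]
  refine Nat.le_findGreatest hj2 ⟨hj4, fun n hn h => hN n ?_ hn⟩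
  have := hy.le_apply (x := j)
  omega

/-- **The count can be unbounded relative to its expectation.** -/
theorem t_ASB (hCON : J_CON) (hENM : J_ENM) (hKLB : J_KLB) (hR : Rates U p) (hd : Monotone d) (hd0 : ∀ n, 0 ≤ d n)
    (hC : ¬ Conv U p d) :
    ∃ (Ω : Type) (_ : MeasurableSpace Ω) (μ : Measure Ω) (_ : IsProbabilityMeasure μ) (A : Ω → Set ℕ), IsRandomSet A ∧
    (∀ᶠ x : ℕ in atTop, relEnt p μ A (ind U x) ≤ d x) ∧
    ∀ᵐ ω ∂μ, ∀ B : ℝ, ∃ᶠ x : ℕ in atTop, B * mass U p x < cnt U (A ω) x := by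
  classical
  obtain ⟨y, hy, hy1, hy2⟩ := scales hR
  obtain ⟨J, hJ1, hJ2⟩ : ∃ J : ℕ, 1 ≤ J ∧ ∀ n ∈ U, y J ≤ n → p n ≤ 1 / 2 := by
    obtain ⟨N, hN⟩ := eventually_atTop.1 (hR.small (1 / 2) (by norm_num))
    refine ⟨N + 1, by omega, fun n hn h => (hN n ?_ hn).le⟩
    have := hy.le_apply (x := N + 1)
    omega
  set q₀ : ℕ → ℝ := qq d y J with hq₀
  have hq₀0 : ∀ j, 0 ≤ q₀ j := fun j => qq_nonneg hd hy J j
  have hq₀1 : ∀ j, q₀ j ≤ 1 := fun j => qq_le_one J j
  obtain ⟨b, hb1, hbt, hbs⟩ := weights hq₀0 (not_summable_qq hR hd hd0 hC hy hy1 hy2 J)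
  set q : ℕ → ℝ := fun j => q₀ j / b j with hq
  have hb0 : ∀ j, 0 < b j := fun j => by linarith [hb1 j]
  have hq0 : ∀ j, 0 ≤ q j := fun j => div_nonneg (hq₀0 j) (hb0 j).le
  have hq1 : ∀ j, q j ≤ 1 := fun j => by
    rw [hq]
    simp only
    rw [div_le_one (hb0 j)]
    linarith [hq₀1 j, hb1 j]
  set κ : ℕ → ℕ := kk U p y b J with hκ
  have hκs : ∀ j, J ≤ j → ((κ j : ℝ) ^ 2 + 1 ≤ b j) ∧ ∀ n ∈ U, y j ≤ n → ((κ j : ℝ) ^ 2 + 1) * p n ≤ 1 :=
    fun j hj => kk_spec hR hb1 hj
  have hκ1 : ∀ j, ¬ J ≤ j → κ j = 1 := fun j hj => by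
    rw [hκ]
    unfold kk
    rw [if_neg hj]
  have hκt : Tendsto κ atTop atTop := kk_tend hR hy hbt J
  have hblJ : ∀ n, J ≤ bl y n → y (bl y n) ≤ n := fun n h => bl_le (by omega)
  -- `κ p ≤ 1`
  have hκp : ∀ n ∈ U, 0 ≤ (κ (bl y n) : ℝ) * p n ∧ (κ (bl y n) : ℝ) * p n ≤ 1 := by
    intro n hn
    have h0 := (hR.pos n hn).le
    refine ⟨by positivity, ?_⟩
    by_cases hb : J ≤ bl y n
    · have h1 := (hκs _ hb).2 n hn (hblJ n hb)
      have h2 : (κ (bl y n) : ℝ) ≤ (κ (bl y n) : ℝ) ^ 2 + 1 := by nlinarith [sq_nonneg ((κ (bl y n) : ℝ) - 1)]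
      exact (mul_le_mul_of_nonneg_right h2 h0).trans h1
    · rw [hκ1 _ hb]
      simpa using (hR.lt_one n hn).le
  -- the random set of blocks
  obtain ⟨X, _, ν, _, Ξ, π', hX⟩ := hCON Unit (Measure.dirac ()) (fun _ => q)
    (fun n => measurable_const) (fun _ n => ⟨hq0 n, hq1 n⟩)
  have hΞlaw : ∀ F T : Finset ℕ, ν.real {x | ∀ n ∈ F, (n ∈ Ξ x ↔ n ∈ T)} = bern q F T := by
    intro F T
    have h1 := hX.law F T Set.univ MeasurableSet.univ
    simpa using h1
  have hΞ1 : ∀ j, ν.real {x | j ∈ Ξ x} = q j := by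
    intro j
    have h1 := hΞlaw {j} {j}
    simpa [bern] using h1
  -- the mixture
  set r : X → ℕ → ℝ := fun x n => if n ∈ U then (if bl y n ∈ Ξ x then κ (bl y n) * p n else p n) else 0 with hr
  have hrm : ∀ n, Measurable (fun x => r x n) := by
    intro n
    by_cases hn : n ∈ U
    · have h1 : (fun x => r x n) = fun x => if bl y n ∈ Ξ x then κ (bl y n) * p n else p n := by
        ext x
        simp only [hr]
        rw [if_pos hn]
      rw [h1]
      exact Measurable.ite (hX.rand _) measurable_const measurable_const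
    · have h1 : (fun x => r x n) = fun _ => 0 := by
        ext x
        simp only [hr]
        rw [if_neg hn]
      rw [h1]
      exact measurable_const
  have hr01 : ∀ x n, 0 ≤ r x n ∧ r x n ≤ 1 := by
    intro x n
    simp only [hr]
    split_ifs with h h'
    · exact hκp n h
    · exact ⟨(hR.pos n h).le, (hR.lt_one n h).le⟩
    · exact ⟨le_rfl, zero_le_one⟩
  obtain ⟨Ω, _, μ, _, A, π, hM⟩ := hCON X ν r hrm hr01
  refine ⟨Ω, inferInstance, μ, inferInstance, A, hM.rand, Eventually.of_forall (fun x => ?_), ?_⟩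
  · -- the entropy
    obtain ⟨-, h1⟩ := hENM X ν r hrm hr01 Ω μ A π hM p (ind U x) (fun n hn => by
      have hnU : n ∈ U := by
        simp only [ind, mem_filter] at hn
        exact hn.2
      exact ⟨hR.pos n hnU, hR.lt_one n hnU⟩)
    refine h1.trans (le_trans ?_ (ent_bound hR hd hd0 hy hy1 hy2 hJ1 x))
    have h2 : ∀ n ∈ ind U x, ∀ z : X, kl (r z n) (p n) =
        ({z | bl y n ∈ Ξ z} : Set X).indicator (fun _ => kl (κ (bl y n) * p n) (p n)) z := by
      intro n hn z
      have hnU : n ∈ U := by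
        simp only [ind, mem_filter] at hn
        exact hn.2
      by_cases h : bl y n ∈ Ξ z
      · rw [Set.indicator_of_mem (show z ∈ {z | bl y n ∈ Ξ z} from h)]
        have : r z n = κ (bl y n) * p n := by
          simp only [hr]
          rw [if_pos hnU, if_pos h]
        rw [this]
      · rw [Set.indicator_of_notMem (show z ∉ {z | bl y n ∈ Ξ z} from h)]
        have : r z n = p n := by
          simp only [hr]
          rw [if_pos hnU, if_neg h]
        rw [this, kl_self (hR.pos n hnU) (hR.lt_one n hnU)]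
    have h3 : ∫ z, ∑ n ∈ ind U x, kl (r z n) (p n) ∂ν =
        ∑ n ∈ ind U x, q (bl y n) * kl (κ (bl y n) * p n) (p n) := by
      have h4 : ∀ z, ∑ n ∈ ind U x, kl (r z n) (p n) = ∑ n ∈ ind U x,
          ({z | bl y n ∈ Ξ z} : Set X).indicator (fun _ => kl (κ (bl y n) * p n) (p n)) z := fun z =>
        sum_congr rfl (fun n hn => h2 n hn z)
      simp only [h4]
      rw [integral_finsetSum _ (fun n _ => (integrable_const _).indicator (hX.rand _))]
      refine sum_congr rfl (fun n _ => ?_)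
      rw [integral_indicator (hX.rand _), setIntegral_const, hΞ1, smul_eq_mul]
    rw [h3]
    refine sum_le_sum (fun n hn => ?_)
    have hnU : n ∈ U := by
      simp only [ind, mem_filter] at hn
      exact hn.2
    have hp0 := hR.pos n hnU
    by_cases hb : J ≤ bl y n
    · have h5 : p n ≤ 1 / 2 := hJ2 n hnU ((hy.monotone hb).trans (hblJ n hb))
      obtain ⟨h6, h7⟩ := hκs _ hb
      have h8 := h7 n hnU (hblJ n hb)
      have h9 := hKLB (κ (bl y n)) (p n) (Nat.cast_nonneg _) hp0 h5 (hκp n hnU).2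
      have h10 := hfun_le (u := (κ (bl y n) : ℝ)) (Nat.cast_nonneg _)
      have h11 : kl (κ (bl y n) * p n) (p n) ≤ p n * (2 * b (bl y n)) := by
        have h12 : ((κ (bl y n) : ℝ) ^ 2 + 1) * p n ^ 2 ≤ p n := by
          calc ((κ (bl y n) : ℝ) ^ 2 + 1) * p n ^ 2 = ((κ (bl y n) : ℝ) ^ 2 + 1) * p n * p n := by ring
            _ ≤ 1 * p n := mul_le_mul_of_nonneg_right h8 hp0.le
            _ = p n := one_mul _
        have h13 : p n * hfun (κ (bl y n)) ≤ p n * ((κ (bl y n) : ℝ) ^ 2 + 1) :=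
          mul_le_mul_of_nonneg_left h10 hp0.le
        have h14 : p n * (((κ (bl y n) : ℝ) ^ 2 + 1) + 1) ≤ p n * (2 * b (bl y n)) :=
          mul_le_mul_of_nonneg_left (by nlinarith [sq_nonneg (κ (bl y n) : ℝ)]) hp0.le
        nlinarith
      have h15 := mul_le_mul_of_nonneg_left h11 (hq0 (bl y n))
      have h16 : q (bl y n) * b (bl y n) = q₀ (bl y n) := by
        rw [hq]
        simp only
        rw [div_mul_cancel₀ _ (hb0 _).ne']
      calc q (bl y n) * kl (κ (bl y n) * p n) (p n) ≤ q (bl y n) * (p n * (2 * b (bl y n))) := h15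
        _ = 2 * (q (bl y n) * b (bl y n)) * p n := by ring
        _ = 2 * qq d y J (bl y n) * p n := by rw [h16, hq₀]
    · have h5 : q₀ (bl y n) = 0 := by
        rw [hq₀]
        unfold qq
        rw [if_neg hb]
      have h6 : q (bl y n) = 0 := by
        rw [hq]
        simp only
        rw [h5, zero_div]
      have h7 : qq d y J (bl y n) = 0 := h5
      rw [h6, zero_mul, h7]
      simp
  · -- infinitely many blocks are rich
    have hinf : ∀ᵐ x ∂ν, ∃ᶠ j : ℕ in atTop, j ∈ Ξ x := by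
      have h1 : ProbabilityTheory.iIndepSet (fun j => {x | j ∈ Ξ x}) ν := by
        rw [ProbabilityTheory.iIndepSet_iff_meas_biInter (fun j => hX.rand j)]
        intro S
        have h2 := hΞlaw S S
        have h3 : {x | ∀ n ∈ S, (n ∈ Ξ x ↔ n ∈ S)} = ⋂ i ∈ S, {x | i ∈ Ξ x} := by
          ext x
          simp only [Set.mem_ofPred_eq, Set.mem_iInter]
          exact forall₂_congr (fun n hn => by simp [hn])
        rw [h3] at h2
        have h4 : bern q S S = ∏ i ∈ S, ν.real {x | i ∈ Ξ x} := by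
          unfold bern
          refine prod_congr rfl (fun n hn => ?_)
          rw [if_pos hn, hΞ1]
        rw [h4] at h2
        have h5 := congrArg ENNReal.ofReal h2
        rw [Measure.real, ENNReal.ofReal_toReal (measure_ne_top _ _),
          ENNReal.ofReal_prod_of_nonneg (fun i _ => measureReal_nonneg)] at h5
        rw [h5]
        refine prod_congr rfl (fun i _ => ?_)
        rw [Measure.real, ENNReal.ofReal_toReal (measure_ne_top _ _)]
      have h2 : ∑' j : ℕ, ν {x | j ∈ Ξ x} = ⊤ := by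
        by_contra hcon
        apply hbs
        have h3 := ENNReal.summable_toReal hcon
        refine h3.congr (fun j => ?_)
        exact hΞ1 j
      have h3 := ProbabilityTheory.measure_limsup_eq_one (fun j => hX.rand j) h1 h2
      have h4 : MeasurableSet (limsup (fun j => {x | j ∈ Ξ x}) atTop) :=
        MeasurableSet.measurableSet_limsup (fun j => hX.rand j)
      have h5 := (mem_ae_iff_prob_eq_one h4).2 h3
      filter_upwards [h5] with x hx
      rw [mem_limsup_iff_frequently_mem] at hx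
      exact hx
    have hinf' : ∀ᵐ ω ∂μ, ∃ᶠ j : ℕ in atTop, j ∈ Ξ (π ω) := by
      have h : ∀ᵐ x ∂(μ.map π), ∃ᶠ j : ℕ in atTop, j ∈ Ξ x := by
        rw [hM.map]
        exact hinf
      exact ae_of_ae_map hM.meas.aemeasurable h
    -- the blocks
    set F : ℕ → Finset ℕ := fun j => (Ico (y j) (y (j + 1))).filter (fun n => n ∈ U) with hF
    set R : ℕ → ℝ := fun j => κ j * ∑ n ∈ F j, p n with hRdef
    have hFm : ∀ j, ∑ n ∈ F j, p n = mass U p (y (j + 1)) - mass U p (y j) := by
      intro j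
      have h1 := mass_diff (U := U) (p := p) (hy (Nat.lt_succ_self j)).le
      rw [Nat.succ_eq_add_one] at h1
      rw [hF, sum_filter]
      linarith
    have hFR : ∀ j, 1 ≤ j → ∀ x, j ∈ Ξ x → ∑ n ∈ F j, r x n = R j := by
      intro j hj x hx
      rw [hRdef]
      simp only
      rw [mul_sum]
      refine sum_congr rfl (fun n hn => ?_)
      rw [hF, mem_filter, mem_Ico] at hn
      have h1 : bl y n = j := bl_eq hy (fun _ => hn.1.1) hn.1.2
      simp only [hr]
      rw [if_pos hn.2, h1, if_pos hx]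
    have hRlow : ∀ j, 1 ≤ κ j → 1 ≤ j → (κ j : ℝ) * (2 ^ j / 2) ≤ R j := by
      intro j hj1 hj2
      rw [hRdef]
      simp only
      refine mul_le_mul_of_nonneg_left ?_ (Nat.cast_nonneg _)
      rw [hFm]
      have h1 := hy1 (j + 1)
      have h2 := hy2 j
      have h3 : (2 : ℝ) ≤ 2 ^ j := by
        calc (2 : ℝ) = 2 ^ 1 := by norm_num
          _ ≤ 2 ^ j := pow_le_pow_right₀ (by norm_num) hj2
      have h4 : (2 : ℝ) ^ (j + 1) = 2 ^ j * 2 := pow_succ 2 j
      linarith
    -- deviations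
    set Z : ℕ → Ω → ℝ := fun j ω => ∑ n ∈ F j, dev A π r n ω with hZ
    have hdm : ∀ n, Measurable (dev A π r n) := fun n =>
      (chi_meas hM.rand n).sub ((hrm n).comp hM.meas)
    have hZm : ∀ j, Measurable (Z j) := fun j => Finset.measurable_sum _ (fun n _ => hdm n)
    obtain ⟨J1, hJ1'⟩ := eventually_atTop.1 ((hκt.eventually_ge_atTop 1).and (eventually_ge_atTop 1))
    have hpos : ∀ j, 0 < R (j + J1) ∧ 2 ^ j / 2 ≤ R (j + J1) := by
      intro j
      obtain ⟨h1, h2⟩ := hJ1' (j + J1) (by omega)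
      have h3 := hRlow _ h1 h2
      have h4 : (1 : ℝ) ≤ κ (j + J1) := by exact_mod_cast h1
      have h5 : (2 : ℝ) ^ j ≤ 2 ^ (j + J1) := pow_le_pow_right₀ (by norm_num) (by omega)
      have h6 : (0 : ℝ) < 2 ^ j := by positivity
      have h7 : (1 : ℝ) * (2 ^ (j + J1) / 2) ≤ κ (j + J1) * (2 ^ (j + J1) / 2) :=
        mul_le_mul_of_nonneg_right h4 (by positivity)
      constructor <;> linarith
    have hdev : ∀ᵐ ω ∂μ, ∀ᶠ j : ℕ in atTop, j ∈ Ξ (π ω) → |Z j ω| < R j / 2 := by
      set f : ℕ → Ω → ENNReal := fun j => (π ⁻¹' {x | j ∈ Ξ x}).indicator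
        (fun ω => ENNReal.ofReal (1 / R j ^ 2) * ENNReal.ofReal (Z j ω ^ 2)) with hf
      have hfm : ∀ j, Measurable (f j) := fun j =>
        (measurable_const.mul ((hZm j).pow_const 2).ennreal_ofReal).indicator (hM.meas (hX.rand j))
      have h1 : ∀ᵐ ω ∂μ, ∑' j : ℕ, f (j + J1) ω < ⊤ := by
        refine ae_lt_top (Measurable.tsum (fun j => hfm _)) ?_
        rw [lintegral_tsum (fun j => (hfm _).aemeasurable)]
        have hb : ∀ j : ℕ, ∫⁻ ω, f (j + J1) ω ∂μ ≤ ENNReal.ofReal (2 * (1 / 2) ^ j) := by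
          intro j
          obtain ⟨h2, h3⟩ := hpos j
          rw [hf]
          simp only
          rw [lintegral_indicator (hM.meas (hX.rand _)), lintegral_const_mul _ ((hZm _).pow_const 2).ennreal_ofReal]
          have e2 := second hM hrm hr01 (hX.rand (j + J1)) (F (j + J1)) (M := R (j + J1)) h2.le
            (fun x hx => (hFR _ (hJ1' (j + J1) (by omega)).2 x hx).le)
          refine (mul_le_mul_right e2 _).trans ?_
          rw [← ENNReal.ofReal_mul (by positivity)]
          refine ENNReal.ofReal_le_ofReal ?_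
          have e3 : 1 / R (j + J1) ^ 2 * R (j + J1) = 1 / R (j + J1) := by
            field_simp
          rw [e3, div_le_iff₀ h2]
          have e4 : (1 / 2 : ℝ) ^ j * 2 ^ j = 1 := by
            rw [← mul_pow]
            norm_num
          have e5 : (0 : ℝ) < (1 / 2) ^ j := by positivity
          nlinarith
        refine ne_top_of_le_ne_top ?_ (ENNReal.tsum_le_tsum hb)
        exact Summable.tsum_ofReal_ne_top ((summable_geometric_of_lt_one (by norm_num) (by norm_num)).mul_left 2)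
      filter_upwards [h1] with ω hω
      have h2 := ENNReal.tendsto_atTop_zero_of_tsum_ne_top hω.ne
      have h3 : Tendsto (fun j => f j ω) atTop (𝓝 0) := (tendsto_add_atTop_iff_nat J1).1 h2
      have h4 : ∀ᶠ j : ℕ in atTop, f j ω < ENNReal.ofReal (1 / 4) :=
        h3.eventually_lt_const (by simp)
      filter_upwards [h4, eventually_ge_atTop J1] with j hj hjJ hjΞ
      obtain ⟨i, rfl⟩ : ∃ i, j = i + J1 := ⟨j - J1, by omega⟩
      obtain ⟨h5, -⟩ := hpos i
      rw [hf] at hj
      simp only at hj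
      rw [Set.indicator_of_mem (show ω ∈ π ⁻¹' {x | i + J1 ∈ Ξ x} from hjΞ), ← ENNReal.ofReal_mul (by positivity),
        ENNReal.ofReal_lt_ofReal_iff (by norm_num)] at hj
      have h6 : Z (i + J1) ω ^ 2 < (R (i + J1) / 2) ^ 2 := by
        have h7 : 1 / R (i + J1) ^ 2 * Z (i + J1) ω ^ 2 = Z (i + J1) ω ^ 2 / R (i + J1) ^ 2 := by ring
        rw [h7, div_lt_iff₀ (by positivity)] at hj
        linarith
      exact abs_lt_of_sq_lt_sq h6 (by positivity)
    filter_upwards [hinf', hdev] with ω h1 h2 B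
    have hyt : Tendsto (fun j => y (j + 1)) atTop atTop := hy.tendsto_atTop.comp (tendsto_add_atTop_nat 1)
    refine hyt.frequently (h1.mp ?_) |>.mono (fun x hx => hx)
    filter_upwards [h2, eventually_ge_atTop J1, hκt.eventually_gt_atTop ⌈12 * |B|⌉₊] with j h3 h4 h5 h6
    have h7 := h3 h6
    obtain ⟨hk1, hj1⟩ := hJ1' j h4
    have h8 := hFR j hj1 (π ω) h6
    have h9 := hRlow j hk1 hj1
    have h10 : (∑ n ∈ F j, chi A n ω) = Z j ω + R j := by
      rw [← h8, hZ, ← sum_add_distrib]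
      refine sum_congr rfl (fun n _ => ?_)
      unfold dev
      ring
    have h11 : (∑ n ∈ F j, chi A n ω) ≤ cnt U (A ω) (y (j + 1)) := by
      rw [cnt_eq]
      refine sum_le_sum_of_subset_of_nonneg ?_ (fun n _ _ => chi_nonneg n ω)
      intro n hn
      rw [hF, mem_filter, mem_Ico] at hn
      simp only [ind, mem_filter, mem_range]
      exact ⟨hn.1.2, hn.2⟩
    rw [abs_lt] at h7
    have h12 : R j / 2 < cnt U (A ω) (y (j + 1)) := by linarith
    have h13 := hy2 (j + 1)
    have h14 : (1 : ℝ) ≤ 2 ^ j := one_le_pow₀ (by norm_num)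
    rw [pow_succ] at h13
    have h15 : 12 * |B| < κ j := lt_of_le_of_lt (Nat.le_ceil _) (by exact_mod_cast h5)
    have h16 : 0 ≤ mass U p (y (j + 1)) := by
      have := hy1 (j + 1)
      have : (0 : ℝ) < 2 ^ (j + 1) := by positivity
      linarith
    have h17 : B * mass U p (y (j + 1)) ≤ |B| * (3 * 2 ^ j) :=
      (mul_le_mul_of_nonneg_right (le_abs_self B) h16).trans
        (mul_le_mul_of_nonneg_left (by linarith) (abs_nonneg B))
    have h18 : 12 * |B| * 2 ^ j < κ j * 2 ^ j := mul_lt_mul_of_pos_right h15 (by positivity)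
    linarith

end Pool.Agent.Q160.LT
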