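import Pool.Agent.Q120.ME.Stm
import Pool.Agent.Q106.GMM.Stz
import Pool.Agent.Cov.PNT

/-!
# The model: each prime `p` with probability `C / (2 √p)`

The expected number of elements below `x` is asymptotic to `C √x / log x`.
-/

set_option autoImplicit false

namespace Pool.Agent.Q160.LT

open Finset Filter Pool.Agent.Q120.ME Pool.Agent.Q106.GMM
open scoped Topology

/-- The primes. -/
def P : Set ℕ := {n | n.Prime}

/-- The probability of `n`. -/
noncomputable def rate (C : ℝ) (n : ℕ) : ℝ := min (1 / 2) (C / (2 * √n))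

/-- The expected order of magnitude. -/
noncomputable def E (C : ℝ) (x : ℕ) : ℝ := C * (√x / Real.log x)

/-- the indicator of the primes -/
noncomputable def bb (n : ℕ) : ℝ := if n.Prime then 1 else 0
/-- the density -/
noncomputable def ff (n : ℕ) : ℝ := if 2 ≤ n then 1 / Real.log n else 0
/-- the weight -/
noncomputable def ww (n : ℕ) : ℝ := if 1 ≤ n then 1 / √n else 1

theorem ff_nonneg (n : ℕ) : 0 ≤ ff n := by
  unfold ff
  split_ifs with h
  · have : (1 : ℝ) ≤ n := by exact_mod_cast (show 1 ≤ n by omega)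
    have := Real.log_nonneg this
    positivity
  · exact le_rfl

theorem ww_nonneg (n : ℕ) : 0 ≤ ww n := by
  unfold ww
  split_ifs <;> positivity

theorem ww_anti : Antitone ww := by
  refine antitone_nat_of_succ_le (fun n => ?_)
  unfold ww
  rw [if_pos (by omega)]
  split_ifs with h
  · have h1 : (0 : ℝ) < n := by exact_mod_cast h
    refine one_div_le_one_div_of_le (Real.sqrt_pos.2 h1) (Real.sqrt_le_sqrt ?_)
    push_cast
    linarith
  · have : n = 0 := by omega
    subst this
    simp

/-- `∑ 1 / log n ~ x / log x` -/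
theorem sum_ff : Tendsto (fun N : ℕ => (∑ n ∈ range N, ff n) / UU 1 (-1) N) atTop (𝓝 1) := by
  have hinc := inc_pos (r := 1) one_pos (-1)
  have hden : ∀ᶠ n : ℕ in atTop, 0 < ((n : ℝ) ^ ((1 : ℝ) - 1) * Real.log n ^ (-1 : ℝ)) := by
    filter_upwards [eventually_ge_atTop 2] with n hn
    have hn0 : (1 : ℝ) < n := by exact_mod_cast (show 1 < n by omega)
    have hl : 0 < Real.log (n : ℝ) := Real.log_pos hn0
    have := Real.rpow_pos_of_pos (show (0 : ℝ) < n by linarith) ((1 : ℝ) - 1)
    have := Real.rpow_pos_of_pos hl (-1 : ℝ)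
    positivity
  refine stolz_UU (Or.inl one_pos) ?_ ?_
  · filter_upwards [hinc.eventually_const_lt (show (1 / 2 : ℝ) < 1 by norm_num), hden] with n h1 h2
    rw [lt_div_iff₀ h2] at h1
    exact lt_trans (mul_pos (by norm_num) h2) h1
  · have h1 := hinc.inv₀ one_ne_zero
    rw [inv_one] at h1
    refine h1.congr' ?_
    filter_upwards [eventually_ge_atTop 2] with n hn
    have hn0 : (1 : ℝ) < n := by exact_mod_cast (show 1 < n by omega)
    have hl : 0 < Real.log (n : ℝ) := Real.log_pos hn0
    unfold ff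
    rw [if_pos hn, inv_div, sub_self, Real.rpow_zero, one_mul, Real.rpow_neg_one, one_div]

/-- `∑ 1 / (√n log n) ~ 2 √x / log x` -/
theorem sum_fw : Tendsto (fun N : ℕ => (∑ n ∈ range N, ff n * ww n) / UU (1 / 2) (-1) N) atTop (𝓝 2) := by
  have hinc := inc_pos (r := 1 / 2) (by norm_num) (-1)
  have hden : ∀ᶠ n : ℕ in atTop, 0 < ((n : ℝ) ^ ((1 / 2 : ℝ) - 1) * Real.log n ^ (-1 : ℝ)) := by
    filter_upwards [eventually_ge_atTop 2] with n hn
    have hn0 : (1 : ℝ) < n := by exact_mod_cast (show 1 < n by omega)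
    have hl : 0 < Real.log (n : ℝ) := Real.log_pos hn0
    have := Real.rpow_pos_of_pos (show (0 : ℝ) < n by linarith) ((1 / 2 : ℝ) - 1)
    have := Real.rpow_pos_of_pos hl (-1 : ℝ)
    positivity
  refine stolz_UU (Or.inl (by norm_num)) ?_ ?_
  · filter_upwards [hinc.eventually_const_lt (show (1 / 4 : ℝ) < 1 / 2 by norm_num), hden] with n h1 h2
    rw [lt_div_iff₀ h2] at h1
    exact lt_trans (mul_pos (by norm_num) h2) h1
  · have h1 := hinc.inv₀ (by norm_num)
    rw [show ((1 / 2 : ℝ))⁻¹ = 2 by norm_num] at h1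
    refine h1.congr' ?_
    filter_upwards [eventually_ge_atTop 2] with n hn
    have hn0 : (1 : ℝ) < n := by exact_mod_cast (show 1 < n by omega)
    have hl : 0 < Real.log (n : ℝ) := Real.log_pos hn0
    unfold ff ww
    rw [if_pos hn, if_pos (by omega), inv_div]
    congr 1
    have h2 : ((n : ℝ) ^ ((1 / 2 : ℝ) - 1)) = 1 / √n := by
      rw [Real.sqrt_eq_rpow, one_div ((n : ℝ) ^ (1 / 2 : ℝ)), ← Real.rpow_neg (by linarith)]
      norm_num
    rw [h2, Real.rpow_neg_one, one_div (Real.log n), mul_comm]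

theorem UU_one (N : ℕ) : UU 1 (-1) N = N / Real.log N := by
  unfold UU
  rw [Real.rpow_one, Real.rpow_neg_one, div_eq_mul_inv]

theorem UU_half (N : ℕ) : UU (1 / 2) (-1) N = √N / Real.log N := by
  unfold UU
  rw [Real.rpow_neg_one, Real.sqrt_eq_rpow, div_eq_mul_inv _ (Real.log N)]

theorem sum_bb_eq (N : ℕ) : (∑ n ∈ range (N + 1), bb n) = (Nat.primeCounting N : ℝ) := by
  unfold bb
  rw [← sum_filter, sum_const, nsmul_eq_mul, mul_one]
  congr 1
  rw [Nat.primeCounting, Nat.primeCounting', Nat.count_eq_card_filter_range]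

/-- the prime number theorem -/
theorem sum_bb : Tendsto (fun N : ℕ => (∑ n ∈ range N, bb n) / UU 1 (-1) N) atTop (𝓝 1) := by
  have h1 := Pool.Agent.Cov.PNT.pi_tendsto.comp tendsto_natCast_atTop_atTop
  have h2 : Tendsto (fun N : ℕ => bb N / UU 1 (-1) N) atTop (𝓝 0) := by
    have h3 : Tendsto (fun N : ℕ => 1 / UU 1 (-1) N) atTop (𝓝 0) := by
      have := (UU_top (r := 1) (q := -1) (Or.inl one_pos)).inv_tendsto_atTop
      refine this.congr (fun N => ?_)
      simp
    refine squeeze_zero' ?_ ?_ h3
    · filter_upwards [(UU_top (r := 1) (q := -1) (Or.inl one_pos)).eventually_gt_atTop 0] with N hN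
      unfold bb
      split_ifs <;> positivity
    · filter_upwards [(UU_top (r := 1) (q := -1) (Or.inl one_pos)).eventually_gt_atTop 0] with N hN
      refine div_le_div_of_nonneg_right ?_ hN.le
      unfold bb
      split_ifs <;> norm_num
  have h3 := h1.sub h2
  rw [sub_zero] at h3
  refine h3.congr' ?_
  filter_upwards [eventually_ge_atTop 2] with N hN
  simp only [Function.comp_apply, Nat.floor_natCast]
  rw [← sum_bb_eq, sum_range_succ, UU_one]
  have hN0 : (1 : ℝ) < N := by exact_mod_cast (show 1 < N by omega)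
  have hl : 0 < Real.log (N : ℝ) := Real.log_pos hN0
  field_simp
  ring

theorem half_tend : Tendsto (fun N : ℕ => √N / Real.log N) atTop atTop := by
  have h := UU_top (r := 1 / 2) (q := -1) (Or.inl (by norm_num))
  refine h.congr (fun N => ?_)
  rw [UU_half]

/-- the sum of `1 / √p` over the primes below `N` -/
theorem sum_sqrt : Tendsto (fun N : ℕ => (∑ n ∈ range N, bb n * ww n) / (√N / Real.log N)) atTop (𝓝 2) := by
  have hV : Tendsto (fun N => ∑ n ∈ range N, ff n * ww n) atTop atTop := by
    have h1 := sum_fw.pos_mul_atTop (show (0 : ℝ) < 2 by norm_num) (UU_top (r := 1 / 2) (q := -1) (Or.inl (by norm_num)))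
    refine h1.congr' ?_
    filter_upwards [(UU_top (r := 1 / 2) (q := -1) (Or.inl (by norm_num))).eventually_gt_atTop 0] with N hN
    field_simp
  have hF' : Tendsto (fun N => ∑ n ∈ range N, ff n) atTop atTop := by
    have h1 := sum_ff.pos_mul_atTop one_pos (UU_top (r := 1) (q := -1) (Or.inl one_pos))
    refine h1.congr' ?_
    filter_upwards [(UU_top (r := 1) (q := -1) (Or.inl one_pos)).eventually_gt_atTop 0] with N hN
    field_simp
  have hB : Tendsto (fun N => (∑ n ∈ range N, bb n) / ∑ n ∈ range N, ff n) atTop (𝓝 1) := by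
    have h1 := sum_bb.div sum_ff one_ne_zero
    rw [div_one] at h1
    refine h1.congr' ?_
    filter_upwards [(UU_top (r := 1) (q := -1) (Or.inl one_pos)).eventually_gt_atTop 0, hF'.eventually_gt_atTop 0] with N hN hN2
    simp only [Pi.div_apply]
    field_simp
  have h2 := abel_div ff_nonneg ww_anti ww_nonneg hB (hF'.eventually_gt_atTop 0) hV
  have h3 := h2.mul sum_fw
  rw [one_mul] at h3
  refine h3.congr' ?_
  filter_upwards [half_tend.eventually_gt_atTop 0, hV.eventually_gt_atTop 0] with N hN hN2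
  rw [UU_half]
  field_simp

theorem mass_eq (C : ℝ) (x : ℕ) : mass P (rate C) x = ∑ n ∈ range x, bb n * rate C n := by
  classical
  unfold mass ind
  rw [sum_filter]
  refine sum_congr rfl (fun n _ => ?_)
  unfold bb
  have : (n ∈ P) = n.Prime := rfl
  simp only [this]
  split_ifs <;> simp

theorem rate_tend (C : ℝ) : Tendsto (fun n : ℕ => C / (2 * √n)) atTop (𝓝 0) := by
  refine Tendsto.const_div_atTop ?_ C
  exact Tendsto.const_mul_atTop (by norm_num) (Real.tendsto_sqrt_atTop.comp tendsto_natCast_atTop_atTop)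

theorem E_tend {C : ℝ} (hC : 0 < C) : Tendsto (E C) atTop atTop :=
  half_tend.const_mul_atTop hC

/-- **The expected number.** -/
theorem mass_ratio {C : ℝ} (hC : 0 < C) : Tendsto (fun x : ℕ => mass P (rate C) x / E C x) atTop (𝓝 1) := by
  obtain ⟨n0, hn0⟩ := eventually_atTop.1 ((rate_tend C).eventually (gt_mem_nhds (show (0 : ℝ) < 1 / 2 by norm_num)))
  set T : ℝ := ∑ n ∈ range (n0 + 1), |bb n * rate C n - C / 2 * (bb n * ww n)| with hT
  have h1 : ∀ x : ℕ, |mass P (rate C) x - C / 2 * ∑ n ∈ range x, bb n * ww n| ≤ T := by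
    intro x
    rw [mass_eq, mul_sum, ← sum_sub_distrib]
    refine (abs_sum_le_sum_abs _ _).trans ?_
    rw [← sum_filter_of_ne (p := fun n => n < n0 + 1)]
    · refine sum_le_sum_of_subset_of_nonneg ?_ (fun _ _ _ => abs_nonneg _)
      intro n hn
      exact mem_range.2 (mem_filter.1 hn).2
    · intro n _ hne
      by_contra hlt
      apply hne
      have h2 := hn0 n (by omega)
      have h3 : rate C n = C / (2 * √n) := min_eq_right h2.le
      have h4 : ww n = 1 / √n := by
        unfold ww
        rw [if_pos (by omega)]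
      rw [h3, h4, abs_eq_zero]
      have : C / (2 * √(n : ℝ)) = C / 2 * (1 / √n) := by
        rw [div_mul_div_comm, mul_one]
      rw [this]
      ring
  have h2 : Tendsto (fun x : ℕ => (mass P (rate C) x - C / 2 * ∑ n ∈ range x, bb n * ww n) / E C x) atTop (𝓝 0) := by
    refine squeeze_zero_norm' (a := fun x : ℕ => T / E C x) ?_ ?_
    · filter_upwards [(E_tend hC).eventually_gt_atTop 0] with x hx
      rw [Real.norm_eq_abs, abs_div, abs_of_pos hx]
      exact div_le_div_of_nonneg_right (h1 x) hx.le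
    · exact tendsto_const_nhds.div_atTop (E_tend hC)
  have h3 := h2.add (sum_sqrt.mul_const (1 / 2))
  rw [zero_add, show (2 : ℝ) * (1 / 2) = 1 by norm_num] at h3
  refine h3.congr' ?_
  filter_upwards [(E_tend hC).eventually_gt_atTop 0, half_tend.eventually_gt_atTop 0] with x hx hx2
  unfold E at hx ⊢
  field_simp
  ring

theorem rates {C : ℝ} (hC : 0 < C) : Rates P (rate C) where
  pos := by
    intro n hn
    have h2 : (0 : ℝ) < n := by exact_mod_cast (show n.Prime from hn).pos
    unfold rate
    refine lt_min (by norm_num) ?_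
    have := Real.sqrt_pos.2 h2
    positivity
  lt_one := by
    intro n _
    unfold rate
    exact (min_le_left _ _).trans_lt (by norm_num)
  small := by
    intro ε hε
    filter_upwards [(rate_tend C).eventually (gt_mem_nhds hε)] with n hn _
    unfold rate
    exact (min_le_right _ _).trans_lt hn
  div := by
    have h1 := (mass_ratio hC).pos_mul_atTop one_pos (E_tend hC)
    refine h1.congr' ?_
    filter_upwards [(E_tend hC).eventually_gt_atTop 0] with x hl
    field_simp

/-- counting relative to `E` or to the mass is the same -/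
theorem tendsto_iff {C : ℝ} (hC : 0 < C) (f : ℕ → ℝ) (l : ℝ) : Tendsto (fun x : ℕ => f x / mass P (rate C) x) atTop (𝓝 l) ↔
    Tendsto (fun x : ℕ => f x / E C x) atTop (𝓝 l) := by
  constructor
  · intro h
    have h1 := h.mul (mass_ratio hC)
    rw [mul_one] at h1
    refine h1.congr' ?_
    filter_upwards [(E_tend hC).eventually_gt_atTop 0, (rates hC).div.eventually_gt_atTop 0] with x h2 h3
    field_simp
  · intro h
    have h1 := h.mul ((mass_ratio hC).inv₀ one_ne_zero)
    rw [inv_one, mul_one] at h1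
    refine h1.congr' ?_
    filter_upwards [(E_tend hC).eventually_gt_atTop 0, (rates hC).div.eventually_gt_atTop 0] with x h2 h3
    field_simp

/-- the classes with respect to `E` and to the mass are the same -/
theorem cls_iff {C : ℝ} (hC : 0 < C) (f : ℕ → ℝ) (δ : ℝ) (hδ : 0 ≤ δ) :
    (∀ ε : ℝ, 0 < ε → ∀ᶠ x : ℕ in atTop, f x ≤ (δ + ε) * mass P (rate C) x) ↔
    (∀ ε : ℝ, 0 < ε → ∀ᶠ x : ℕ in atTop, f x ≤ (δ + ε) * E C x) := by
  have key : ∀ ε : ℝ, 0 < ε → ∀ᶠ x : ℕ in atTop, (δ + ε / 2) * mass P (rate C) x ≤ (δ + ε) * E C x ∧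
      (δ + ε / 2) * E C x ≤ (δ + ε) * mass P (rate C) x := by
    intro ε hε
    have h0 : (δ + ε / 2) / (δ + ε) < 1 := by
      rw [div_lt_one (by linarith)]
      linarith
    have h1 : 1 < (δ + ε) / (δ + ε / 2) := by
      rw [one_lt_div (by linarith)]
      linarith
    filter_upwards [(mass_ratio hC).eventually (gt_mem_nhds h1), (mass_ratio hC).eventually (lt_mem_nhds h0),
      (E_tend hC).eventually_gt_atTop 0] with x h2 h3 h4
    rw [div_lt_div_iff₀ h4 (by linarith)] at h2
    rw [div_lt_div_iff₀ (by linarith) h4] at h3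
    constructor <;> nlinarith
  constructor
  · intro h ε hε
    filter_upwards [h (ε / 2) (by linarith), key ε hε] with x h1 h2
    exact h1.trans h2.1
  · intro h ε hε
    filter_upwards [h (ε / 2) (by linarith), key ε hε] with x h1 h2
    exact h1.trans h2.2

/-- the condition of the almost sure law -/
theorem conv_iff {C : ℝ} (hC : 0 < C) (d : ℕ → ℝ) : Conv P (rate C) d ↔
    Summable (fun p : ℕ => if p.Prime then d p * Real.log p ^ 2 / (p * √p) else 0) := by
  classical
  obtain ⟨n0, hn0⟩ := eventually_atTop.1 ((rate_tend C).eventually (gt_mem_nhds (show (0 : ℝ) < 1 / 2 by norm_num)))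
  have hlow : ∀ᶠ x : ℕ in atTop, E C x ≤ 2 * mass P (rate C) x ∧ mass P (rate C) x ≤ 2 * E C x ∧ 0 < E C x ∧
      0 < mass P (rate C) x := by
    filter_upwards [(mass_ratio hC).eventually (gt_mem_nhds (show (1 : ℝ) < 2 by norm_num)),
      (mass_ratio hC).eventually (lt_mem_nhds (show (1 / 2 : ℝ) < 1 by norm_num)),
      (E_tend hC).eventually_gt_atTop 0, (rates hC).div.eventually_gt_atTop 0] with x h2 h3 h4 h5
    rw [div_lt_iff₀ h4] at h2
    rw [lt_div_iff₀ h4] at h3
    exact ⟨by linarith, by linarith, h4, h5⟩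
  have hE : ∀ n : ℕ, 2 ≤ n → rate C n = C / (2 * √n) → ∀ t : ℝ,
      t * Real.log n ^ 2 / (n * √n) = 2 * C * (rate C n * t / E C n ^ 2) := by
    intro n hn h t
    have hn0 : (1 : ℝ) < n := by exact_mod_cast (show 1 < n by omega)
    have hl : 0 < Real.log (n : ℝ) := Real.log_pos hn0
    have hs : 0 < √(n : ℝ) := Real.sqrt_pos.2 (by linarith)
    rw [h]
    unfold E
    have h2 : √(n : ℝ) * √n = n := Real.mul_self_sqrt (by linarith)
    field_simp
    rw [pow_two √(n : ℝ), h2]
  constructor
  · intro h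
    unfold Conv at h
    refine summable_of_isBigO_nat h.norm ?_
    refine Asymptotics.IsBigO.of_bound (8 * C) ?_
    filter_upwards [hlow, eventually_ge_atTop n0, eventually_ge_atTop 2] with n hn hn1 hn2
    by_cases h2 : n.Prime
    · have h2' : n ∈ P := h2
      rw [if_pos h2, if_pos h2', hE n hn2 (min_eq_right (hn0 n hn1).le), norm_norm, Real.norm_eq_abs, Real.norm_eq_abs,
        abs_mul, abs_div, abs_div, abs_of_pos (show 0 < 2 * C by positivity),
        abs_of_pos (show (0 : ℝ) < E C n ^ 2 by have := hn.2.2.1; positivity),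
        abs_of_pos (show (0 : ℝ) < mass P (rate C) n ^ 2 by have := hn.2.2.2; positivity)]
      have h4 : mass P (rate C) n ^ 2 ≤ 4 * E C n ^ 2 := by nlinarith [hn.2.1, hn.2.2.1, hn.2.2.2]
      have h5 : |rate C n * d n| / E C n ^ 2 ≤ 4 * (|rate C n * d n| / mass P (rate C) n ^ 2) := by
        rw [← mul_div_assoc, div_le_div_iff₀ (by have := hn.2.2.1; positivity) (by have := hn.2.2.2; positivity)]
        nlinarith [mul_le_mul_of_nonneg_left h4 (abs_nonneg (rate C n * d n))]
      calc 2 * C * (|rate C n * d n| / E C n ^ 2) ≤ 2 * C * (4 * (|rate C n * d n| / mass P (rate C) n ^ 2)) :=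
            mul_le_mul_of_nonneg_left h5 (by positivity)
        _ = 8 * C * (|rate C n * d n| / mass P (rate C) n ^ 2) := by ring
    · rw [if_neg h2]
      simp only [norm_zero]
      positivity
  · intro h
    unfold Conv
    refine summable_of_isBigO_nat h.norm ?_
    refine Asymptotics.IsBigO.of_bound (2 / C) ?_
    filter_upwards [hlow, eventually_ge_atTop n0, eventually_ge_atTop 2] with n hn hn1 hn2
    by_cases h2 : n.Prime
    · have h2' : n ∈ P := h2
      rw [if_pos h2, if_pos h2', hE n hn2 (min_eq_right (hn0 n hn1).le), norm_norm, Real.norm_eq_abs, Real.norm_eq_abs,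
        abs_mul, abs_div, abs_div, abs_of_pos (show 0 < 2 * C by positivity),
        abs_of_pos (show (0 : ℝ) < E C n ^ 2 by have := hn.2.2.1; positivity),
        abs_of_pos (show (0 : ℝ) < mass P (rate C) n ^ 2 by have := hn.2.2.2; positivity)]
      have h4 : E C n ^ 2 ≤ 4 * mass P (rate C) n ^ 2 := by nlinarith [hn.1, hn.2.2.1, hn.2.2.2]
      have h5 : |rate C n * d n| / mass P (rate C) n ^ 2 ≤ 4 * (|rate C n * d n| / E C n ^ 2) := by
        rw [← mul_div_assoc, div_le_div_iff₀ (by have := hn.2.2.2; positivity) (by have := hn.2.2.1; positivity)]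
        nlinarith [mul_le_mul_of_nonneg_left h4 (abs_nonneg (rate C n * d n))]
      calc |rate C n * d n| / mass P (rate C) n ^ 2 ≤ 4 * (|rate C n * d n| / E C n ^ 2) := h5
        _ = 2 / C * (2 * C * (|rate C n * d n| / E C n ^ 2)) := by
          field_simp
          ring
    · have h2' : n ∉ P := h2
      rw [if_neg h2']
      simp only [norm_zero]
      positivity

end Pool.Agent.Q160.LT
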